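import Pool.Agent.H547.Main48

set_option autoImplicit false

/-!
The full first question of `MP_48d34c_nt`: for every prime `p ≠ 2, 5`,
`∑_{k<p} F(k) C(2k,k)^7/256^k ≡ p³ (mod p⁸)` and
`∑_{k≤(p-1)/2} G(k) C(2k,k)^7/2^{20k} ≡ (-1/p) p³ (mod p⁸)`.
-/

namespace Pool.Agent.Results.MP_48d34c_nt.QOneModEight

open Finset Pool.Agent.R439.PL Pool.Agent.H547

/-- `F(k) = 21k³+22k²+8k+1` -/
def F (k : ℕ) : ℤ := 21 * (k : ℤ) ^ 3 + 22 * (k : ℤ) ^ 2 + 8 * k + 1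

/-- `G(k) = 168k³+76k²+14k+1` -/
def G (k : ℕ) : ℤ := 168 * (k : ℤ) ^ 3 + 76 * (k : ℤ) ^ 2 + 14 * k + 1

/-- `x ≡ y (mod p^m)` for rational numbers: `x - y = p^m w` with the denominator of `w` prime to `p` -/
def Cong (p m : ℕ) (x y : ℚ) : Prop := ∃ w : ℚ, ¬ p ∣ w.den ∧ x - y = (p : ℚ) ^ m * w

theorem cong_of_I {p m : ℕ} [hp : Fact p.Prime] {x y : ℚ} (h : I p m (x - y)) : Cong p m x y := by
  refine ⟨(x - y) / (p : ℚ) ^ m, den_of_I h, ?_⟩
  have := p_ne (p := p)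
  field_simp

theorem sF (n : ℕ) : ∑ k ∈ range n, (F k : ℚ) / 256 ^ k * ((2 * k).choose k : ℚ) ^ 7 =
    2 * ∑ j ∈ range n, Pool.Agent.R440.D518.s j := by
  rw [mul_sum]
  refine sum_congr rfl fun k _ => ?_
  unfold F Pool.Agent.R440.D518.s
  push_cast
  field_simp

theorem sG (n : ℕ) : ∑ k ∈ range n, (G k : ℚ) / 2 ^ (20 * k) * ((2 * k).choose k : ℚ) ^ 7 =
    512 * ∑ j ∈ range n, Pool.Agent.R440.D518.Gou.s j := by
  rw [mul_sum]
  refine sum_congr rfl fun k _ => ?_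
  unfold G Pool.Agent.R440.D518.Gou.s
  rw [pow_mul]
  push_cast
  have : ((2 : ℚ) ^ 20) ^ k ≠ 0 := by positivity
  generalize ((2 : ℚ) ^ 20) ^ k = A at *
  field_simp

theorem result (p : ℕ) [hp : Fact p.Prime] (h2 : p ≠ 2) (h5 : p ≠ 5) :
    Cong p 8 (∑ k ∈ range p, (F k : ℚ) / 256 ^ k * ((2 * k).choose k : ℚ) ^ 7) ((p : ℚ) ^ 3) ∧
    Cong p 8 (∑ k ∈ range ((p - 1) / 2 + 1), (G k : ℚ) / 2 ^ (20 * k) * ((2 * k).choose k : ℚ) ^ 7)
      ((legendreSym p (-1) : ℚ) * (p : ℚ) ^ 3) := by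
  have hodd : p % 2 = 1 := hp.out.eq_two_or_odd.resolve_left h2
  obtain ⟨y, hy⟩ : ∃ y, p = 2 * y + 1 := ⟨p / 2, by omega⟩
  have hl : (legendreSym p (-1) : ℚ) = (-1) ^ y := by
    rw [legendreSym.at_neg_one h2, ZMod.χ₄_eq_neg_one_pow hodd]
    have : p / 2 = y := by omega
    rw [this]
    push_cast
    rfl
  have hy2 : (p - 1) / 2 = y := by omega
  rw [hl, hy2]
  rcases Nat.lt_or_ge 5 p with h3 | h3
  · rw [sF, sG]
    exact ⟨cong_of_I (main48I hy h3), cong_of_I (main48II hy h3)⟩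
  · have hp3 : p = 3 := by
      have := hp.out.two_le
      omega
    subst hp3
    have hy1 : y = 1 := by omega
    subst hy1
    have s3 : ∑ k ∈ range 3, (F k : ℚ) / 256 ^ k * ((2 * k).choose k : ℚ) ^ 7 =
        27 + 597051 / 512 := by
      simp only [sum_range_succ, sum_range_zero, F, Nat.choose]
      norm_num
    have s2 : ∑ k ∈ range (1 + 1), (G k : ℚ) / 2 ^ (20 * k) * ((2 * k).choose k : ℚ) ^ 7 =
        -27 + 229635 / 8192 := by
      simp only [sum_range_succ, sum_range_zero, G, Nat.choose]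
      norm_num
    rw [s3, s2]
    constructor
    · exact cong_of_I ⟨91 / 512, ⟨91, 512, by norm_num, by norm_num⟩, by norm_num⟩
    · exact cong_of_I ⟨35 / 8192, ⟨35, 8192, by norm_num, by norm_num⟩, by norm_num⟩

end Pool.Agent.Results.MP_48d34c_nt.QOneModEight
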